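import Pool.Agent.Y803.GE.Ext
import Pool.Agent.Y803.GE.Conv
import Pool.Agent.H458R4.Cohen2

/-!
# Generic existence of selective independent families: a characterisation of `cov(M) = 𝔠`

The following are equivalent in ZFC:

* `cov(M) = 𝔠` (Martin's axiom for Cohen forcing);
* each independent family with fewer than `𝔠` members is contained in a selective independent
  family;
* for each independent family `I₀` and each family `F₀`, both with fewer than `𝔠` members, such
  that all Boolean combinations of `I₀` are infinite on all finite intersections of members of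
  `F₀`, there are exactly `2 ^ 𝔠` selective independent families which contain `I₀` and whose
  density filter contains `F₀`.

If `κ ^ ℵ₀ = κ > ℵ₀` then the forcing notion of all finite partial functions from `κ × ω` to `2`
forces `𝔠 ≤ κ` and Martin's axiom for Cohen forcing and families of dense sets indexed by sets of
size less than `κ`; so all the three statements hold in the Cohen model.

For the converse, if `𝓓` is a family of dense sets then each `D ∈ 𝓓` gives the set of all finite
strategies which extend all short sequences into `D`. A suitable independent family of size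
`|𝓓| + ℵ₀` forces these sets and the complements of the sets of all strategies of a given length
into the density filter of each larger independent family; the P-set and the Q-set properties give
a sparse sequence of strategies in the filter, and following it one meets all `D ∈ 𝓓`.
-/

namespace Pool.Agent.Results.MP_4ce21c_lc.GenericExistence

open Cardinal Pool.Agent.Helper669.Forcing Pool.Agent.H458R4.Sel Pool.Agent.H458R4.Cohen
open Pool.Agent.Y803.GE

/-- Generic existence of selective independent families is equivalent to `cov(M) = 𝔠`, and this is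
forced by adding `κ` Cohen reals if `κ ^ ℵ₀ = κ > ℵ₀`. -/
theorem result :
    List.TFAE [
      CohenMA,
      ∀ I₀ : Set (Set ℕ), Independent I₀ → #I₀ < 𝔠 → ∃ I, I₀ ⊆ I ∧ Selective I,
      ∀ I₀ F₀ : Set (Set ℕ), Compatible I₀ F₀ → #I₀ < 𝔠 → #F₀ < 𝔠 →
        #{I : Set (Set ℕ) | Selective I ∧ I₀ ⊆ I ∧ F₀ ⊆ densityFilter I} = 2 ^ 𝔠] ∧
    ∀ κ : Type, ℵ₀ < #κ → #κ ^ ℵ₀ = #κ → ∀ p : Fn κ,
      p ∈ ContinuumLe (Fn κ) κ ∧ ∀ J : Type, #J < #κ → p ∈ MeetsDense (Fn κ) J := by
  refine ⟨?_, fun _ hκ hpow p => ⟨continuumLe hκ hpow p, fun _ hJ => meetsDense hκ hJ p⟩⟩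
  tfae_have 1 → 3 := fun hC I₀ F₀ h h1 h2 => mk_selective hC h h1 h2
  tfae_have 3 → 2 := fun h I₀ hI hc => by
    obtain ⟨I, h1, h2, _⟩ := exists_of_mk (h I₀ ∅ (compatible_empty hI) hc (by rw [mk_emptyCollection]; exact continuum_pos))
    exact ⟨I, h2, h1⟩
  tfae_have 2 → 1 := cohenMA_of_generic
  tfae_finish

end Pool.Agent.Results.MP_4ce21c_lc.GenericExistence
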